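import Pool.Agent.Q172.ZetaLim.Soft

/-!
# Limits of the two-sided sequences seen from the index `n ≤ N`
-/

set_option autoImplicit false

namespace Q172.ZetaLim

open MeasureTheory Filter Topology Set
open scoped NNReal ENNReal

noncomputable section

/-- the two-sided sequence seen from the index `n` -/
def seen (d : ℕ → ℝ) (n : ℕ) : ℤ → ℝ :=
  fun k => if 1 ≤ (n : ℤ) + k then d ((n : ℤ) + k).toNat else 0

/-- the shift -/
def shift (ω : ℤ → ℝ) : ℤ → ℝ := fun k => ω (k + 1)

lemma shift_seen (d : ℕ → ℝ) (n : ℕ) : shift (seen d n) = seen d (n + 1) := by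
  funext k
  unfold shift seen
  have : (n : ℤ) + (k + 1) = ((n + 1 : ℕ) : ℤ) + k := by push_cast; ring
  simp only [this]

lemma continuous_shift : Continuous shift := by
  unfold shift
  exact continuous_pi fun k => continuous_apply (k + 1)

lemma measurable_shift : Measurable shift := continuous_shift.measurable

lemma seen_add (d : ℕ → ℝ) (n i : ℕ) (hn : 1 ≤ n) : seen d n (i : ℤ) = d (n + i) := by
  unfold seen
  rw [if_pos (by omega)]
  congr 1

lemma seen_neg (d : ℕ → ℝ) (n k : ℕ) (h : k < n) : seen d n (-(k : ℤ)) = d (n - k) := by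
  unfold seen
  rw [if_pos (by omega)]
  congr 1
  omega

lemma sum_shift_Icc (g : ℕ → ℝ) (N : ℕ) :
    ∑ n ∈ Finset.Icc 1 N, g (n + 1) = ∑ n ∈ Finset.Icc 1 N, g n + g (N + 1) - g 1 := by
  induction N with
  | zero => simp
  | succ N ih =>
    rw [Finset.sum_Icc_succ_top (by omega), Finset.sum_Icc_succ_top (by omega), ih]
    ring

/-- every limit is invariant under the shift -/
theorem map_shift {d : ℕ → ℝ} {P : ProbabilityMeasure (ℤ → ℝ)} (hP : IsLim (seen d) P) :
    (P : Measure (ℤ → ℝ)).map shift = P := by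
  have : IsProbabilityMeasure ((P : Measure (ℤ → ℝ)).map shift) :=
    Measure.isProbabilityMeasure_map measurable_shift.aemeasurable
  refine ext_of_forall_integral_eq_of_IsFiniteMeasure fun f => ?_
  rw [integral_map measurable_shift.aemeasurable f.continuous.aestronglyMeasurable]
  obtain ⟨φ, h1, h2⟩ := hP
  have h3 := h2 f
  have h4 := h2 (f.compContinuous ⟨shift, continuous_shift⟩)
  simp only [BoundedContinuousFunction.compContinuous_apply, ContinuousMap.coe_mk] at h4
  have h5 : Tendsto (fun j => av (seen d) (φ j) (fun x => f (shift x)) -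
      av (seen d) (φ j) (fun x => f x)) atTop (𝓝 0) := by
    rw [tendsto_zero_iff_abs_tendsto_zero]
    refine squeeze_zero (g := fun j : ℕ => 2 * ‖f‖ / (φ j : ℕ)) (fun k => abs_nonneg _)
      (fun k => ?_) ((tendsto_const_div_atTop_nhds_zero_nat (2 * ‖f‖)).comp h1.tendsto_atTop)
    simp only [Function.comp]
    unfold av
    simp only [shift_seen]
    rw [sum_shift_Icc (fun n => f (seen d n)), ← sub_div]
    rw [show ∑ n ∈ Finset.Icc 1 (φ k), f (seen d n) + f (seen d (φ k + 1)) - f (seen d 1) -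
      ∑ n ∈ Finset.Icc 1 (φ k), f (seen d n) = f (seen d (φ k + 1)) - f (seen d 1) by ring]
    rw [abs_div, Nat.abs_cast]
    refine div_le_div_of_nonneg_right ?_ (Nat.cast_nonneg _)
    have e1 := f.norm_coe_le_norm (seen d (φ k + 1))
    have e2 := f.norm_coe_le_norm (seen d 1)
    rw [Real.norm_eq_abs] at e1 e2
    have e3 := abs_sub (f (seen d (φ k + 1))) (f (seen d 1))
    linarith
  have h6 := h3.add h5
  rw [add_zero] at h6
  have h7 : Tendsto (fun j => av (seen d) (φ j) (fun x => f (shift x))) atTop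
      (𝓝 (∫ x, f x ∂(P : Measure (ℤ → ℝ)))) := by
    refine h6.congr fun k => ?_
    ring
  exact tendsto_nhds_unique h4 h7

lemma sum_seen_le (d : ℕ → ℝ) (N : ℕ) (k : ℤ) :
    ∑ n ∈ Finset.Icc 1 N, |seen d n k| ≤ ∑ m ∈ Finset.Icc 1 (N + k.natAbs), |d m| := by
  have h1 : ∑ n ∈ Finset.Icc 1 N, |seen d n k| =
      ∑ n ∈ (Finset.Icc 1 N).filter (fun n : ℕ => 1 ≤ (n : ℤ) + k), |d ((n : ℤ) + k).toNat| := by
    rw [Finset.sum_filter]
    refine Finset.sum_congr rfl fun n _ => ?_
    unfold seen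
    split_ifs <;> simp
  rw [h1, ← Finset.sum_image (f := fun m => |d m|) (g := fun n : ℕ => ((n : ℤ) + k).toNat)]
  · refine Finset.sum_le_sum_of_subset_of_nonneg ?_ fun _ _ _ => abs_nonneg _
    intro m hm
    rw [Finset.mem_image] at hm
    obtain ⟨n, hn, rfl⟩ := hm
    rw [Finset.mem_filter, Finset.mem_Icc] at hn
    rw [Finset.mem_Icc]
    omega
  · intro a ha b hb hab
    rw [Finset.mem_coe, Finset.mem_filter, Finset.mem_Icc] at ha hb
    simp only at hab
    omega

open scoped Classical in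
lemma real_law (s : ℕ → ℤ → ℝ) (N : ℕ) {A : Set (ℤ → ℝ)} (hA : MeasurableSet A) :
    (law s N : Measure (ℤ → ℝ)).real A = av s (N + 1) (fun x => if x ∈ A then 1 else 0) := by
  rw [← integral_indicator_one hA, integral_law s N (measurable_one.indicator hA)]
  rfl

/-- tightness from a bound for the mean -/
theorem tight {d : ℕ → ℝ} {C : ℝ} (hC : 0 < C)
    (hd : ∀ N : ℕ, ∑ n ∈ Finset.Icc 1 N, |d n| ≤ C * N) (ε : ℝ) (hε : 0 < ε) :
    ∃ Q : Set (ℤ → ℝ), IsCompact Q ∧ ∀ N, (law (seen d) N : Measure (ℤ → ℝ)).real Qᶜ ≤ ε := by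
  obtain ⟨e, he, hsum⟩ := ENNReal.exists_pos_sum_of_countable
    (ε := ENNReal.ofReal ε) (by simpa using hε) ℤ
  obtain ⟨a, ha⟩ : ∃ a : ℤ → ℝ, a = fun k => C * (1 + k.natAbs) / e k := ⟨_, rfl⟩
  have hapos : ∀ k, 0 < a k := fun k => by
    rw [ha]
    have : (0 : ℝ) < e k := he k
    positivity
  refine ⟨Set.pi univ fun k => Set.Icc (-a k) (a k), isCompact_univ_pi fun k => isCompact_Icc,
    fun N => ?_⟩
  have hQ : (Set.pi univ fun k => Set.Icc (-a k) (a k))ᶜ = ⋃ k : ℤ, {ω : ℤ → ℝ | a k < |ω k|} := by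
    ext ω
    simp only [mem_compl_iff, Set.mem_pi, mem_univ, true_implies, not_forall, mem_iUnion,
      mem_ofPred_eq, mem_Icc, ← abs_le, not_le]
  have hmeas : ∀ k : ℤ, MeasurableSet {ω : ℤ → ℝ | a k < |ω k|} := fun k =>
    measurableSet_lt measurable_const (measurable_pi_apply k).abs
  have hk : ∀ k : ℤ, (law (seen d) N : Measure (ℤ → ℝ)) {ω : ℤ → ℝ | a k < |ω k|} ≤ e k := by
    intro k
    have hN : (0 : ℝ) < (N + 1 : ℕ) := by positivity
    have hek : (0 : ℝ) < e k := he k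
    have h1 : (law (seen d) N : Measure (ℤ → ℝ)).real {ω : ℤ → ℝ | a k < |ω k|} ≤ e k := by
      rw [real_law _ _ (hmeas k)]
      unfold av
      rw [div_le_iff₀ hN]
      have h2 : ∑ n ∈ Finset.Icc 1 (N + 1),
          (if seen d n ∈ {ω : ℤ → ℝ | a k < |ω k|} then (1 : ℝ) else 0) ≤
          ∑ n ∈ Finset.Icc 1 (N + 1), |seen d n k| / a k := by
        refine Finset.sum_le_sum fun n _ => ?_
        split_ifs with h
        · rw [le_div_iff₀ (hapos k), one_mul]
          exact le_of_lt h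
        · exact div_nonneg (abs_nonneg _) (hapos k).le
      refine h2.trans ?_
      rw [← Finset.sum_div, div_le_iff₀ (hapos k)]
      refine (sum_seen_le d (N + 1) k).trans ((hd _).trans ?_)
      rw [ha]
      have e1 : (e k : ℝ) * ((N + 1 : ℕ) : ℝ) * (C * (1 + k.natAbs) / e k) =
          C * (1 + k.natAbs) * ((N + 1 : ℕ) : ℝ) := by field_simp
      simp only
      rw [e1]
      push_cast
      have : (0 : ℝ) ≤ (k.natAbs : ℝ) := Nat.cast_nonneg _
      have hN' : (0 : ℝ) ≤ (N : ℝ) := Nat.cast_nonneg _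
      nlinarith [mul_nonneg (mul_nonneg hC.le this) hN']
    rw [← ENNReal.ofReal_toReal (measure_ne_top (law (seen d) N : Measure (ℤ → ℝ)) _),
      ← ENNReal.ofReal_coe_nnreal]
    exact ENNReal.ofReal_le_ofReal h1
  have h3 : (law (seen d) N : Measure (ℤ → ℝ))
      (Set.pi univ fun k => Set.Icc (-a k) (a k))ᶜ ≤ ENNReal.ofReal ε := by
    rw [hQ]
    refine (measure_iUnion_le _).trans ((ENNReal.tsum_le_tsum hk).trans hsum.le)
  have h4 := ENNReal.toReal_mono ENNReal.ofReal_ne_top h3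
  rw [ENNReal.toReal_ofReal hε.le] at h4
  exact h4

/-- finitely many terms do not matter -/
lemma ev_of_tail {f : ℕ → ℝ} (h0 : ∀ n, 0 ≤ f n) {a : ℝ} (m : ℕ)
    (h : ∀ ε : ℝ, 0 < ε → ∀ᶠ N : ℕ in atTop, ∑ n ∈ Finset.Ioc m N, f n ≤ (a + ε) * N)
    (ε : ℝ) (hε : 0 < ε) : ∀ᶠ N : ℕ in atTop, ∑ n ∈ Finset.Icc 1 N, f n ≤ (a + ε) * N := by
  have h1 : ∀ᶠ N : ℕ in atTop, ∑ n ∈ Finset.Icc 1 m, f n ≤ ε / 2 * N := by
    have h2 : Tendsto (fun N : ℕ => ε / 2 * (N : ℝ)) atTop atTop :=
      Tendsto.const_mul_atTop (by positivity) tendsto_natCast_atTop_atTop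
    exact h2.eventually_ge_atTop _
  filter_upwards [h (ε / 2) (by positivity), h1] with N hN hN1
  have h3 : ∑ n ∈ Finset.Icc 1 N, f n ≤ ∑ n ∈ Finset.Icc 1 m ∪ Finset.Ioc m N, f n := by
    refine Finset.sum_le_sum_of_subset_of_nonneg ?_ fun _ _ _ => h0 _
    intro n hn
    rw [Finset.mem_Icc] at hn
    rw [Finset.mem_union, Finset.mem_Icc, Finset.mem_Ioc]
    omega
  have h4 : Disjoint (Finset.Icc 1 m) (Finset.Ioc m N) := by
    rw [Finset.disjoint_left]
    intro n hn
    rw [Finset.mem_Icc] at hn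
    rw [Finset.mem_Ioc]
    omega
  rw [Finset.sum_union h4] at h3
  linarith

/-- coordinates are nonnegative -/
theorem nonneg {d : ℕ → ℝ} {n0 : ℕ} (hd : ∀ n, n0 ≤ n → 0 ≤ d n)
    {P : ProbabilityMeasure (ℤ → ℝ)} (hP : IsLim (seen d) P) (k : ℤ) :
    ∀ᵐ ω ∂(P : Measure (ℤ → ℝ)), 0 ≤ ω k := by
  have hF : Continuous (fun ω : ℤ → ℝ => max 0 (-ω k)) :=
    continuous_const.max (continuous_apply k).neg
  have h1 := fatou hP hF (fun _ => le_max_left _ _) (a := 0)
    (ev_of_tail (f := fun n => max 0 (-seen d n k)) (fun _ => le_max_left _ _)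
      (n0 + k.natAbs) (fun ε hε => by
        filter_upwards with N
        have h2 : ∑ n ∈ Finset.Ioc (n0 + k.natAbs) N, max 0 (-seen d n k) = 0 := by
          refine Finset.sum_eq_zero fun n hn => ?_
          rw [Finset.mem_Ioc] at hn
          unfold seen
          rw [if_pos (by omega)]
          have := hd ((n : ℤ) + k).toNat (by omega)
          exact max_eq_left (by linarith)
        rw [h2]
        positivity))
  have h2 : ∫ ω, max 0 (-ω k) ∂(P : Measure (ℤ → ℝ)) = 0 :=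
    le_antisymm h1.2 (integral_nonneg fun _ => le_max_left _ _)
  have h3 := (integral_eq_zero_iff_of_nonneg (f := fun ω : ℤ → ℝ => max 0 (-ω k))
    (fun _ => le_max_left _ _) h1.1).1 h2
  filter_upwards [h3] with ω hω
  simp only [Pi.zero_apply] at hω
  have := le_max_right 0 (-ω k)
  rw [hω] at this
  linarith

/-- coordinates are integrable -/
theorem integrable_coord {d : ℕ → ℝ} {C : ℝ} (hC : 0 < C)
    (hd : ∀ N : ℕ, ∑ n ∈ Finset.Icc 1 N, |d n| ≤ C * N)
    {P : ProbabilityMeasure (ℤ → ℝ)} (hP : IsLim (seen d) P) (k : ℤ) :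
    Integrable (fun ω : ℤ → ℝ => ω k) (P : Measure (ℤ → ℝ)) := by
  have h1 := (fatou hP (F := fun ω : ℤ → ℝ => |ω k|) (continuous_apply k).abs
    (fun _ => abs_nonneg _) (a := C) (fun ε hε => by
      have h2 : ∀ᶠ N : ℕ in atTop, C * k.natAbs ≤ ε * N := by
        have h3 : Tendsto (fun N : ℕ => ε * (N : ℝ)) atTop atTop :=
          Tendsto.const_mul_atTop hε tendsto_natCast_atTop_atTop
        exact h3.eventually_ge_atTop _
      filter_upwards [h2] with N hN
      refine (sum_seen_le d N k).trans ((hd _).trans ?_)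
      push_cast
      linarith)).1
  have h2 : Measurable (fun ω : ℤ → ℝ => ω k) := measurable_pi_apply k
  exact (integrable_norm_iff h2.aestronglyMeasurable).1 h1

end

end Q172.ZetaLim
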