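import Pool.Agent.Q172.ZetaLim.Seq

/-!
# Rigidity of the limits of the two-sided sequences
-/

set_option autoImplicit false

namespace Q172.ZetaLim

open MeasureTheory Filter Topology Set
open scoped NNReal ENNReal

noncomputable section

/-- the weights of one gap -/
def w (J k : ℕ) : ℝ :=
  (1 / J : ℝ) * ∑ j ∈ Finset.Icc 1 J, max 0 (1 - (k : ℝ) / 2 ^ j)

/-- the weights of a block of gaps -/
def u (J K k : ℕ) : ℝ := (1 / K : ℝ) * ∑ i ∈ Finset.range K, w J (k + i)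

lemma w_nonneg (J k : ℕ) : 0 ≤ w J k := by
  unfold w
  exact mul_nonneg (by positivity) (Finset.sum_nonneg fun _ _ => le_max_left _ _)

lemma w_le_one (J k : ℕ) : w J k ≤ 1 := by
  unfold w
  have h1 : ∑ j ∈ Finset.Icc 1 J, max 0 (1 - (k : ℝ) / 2 ^ j) ≤ ∑ j ∈ Finset.Icc 1 J, (1 : ℝ) := by
    refine Finset.sum_le_sum fun j _ => max_le zero_le_one ?_
    have : (0 : ℝ) ≤ (k : ℝ) / 2 ^ j := by positivity
    linarith
  rw [Finset.sum_const, Nat.card_Icc, Nat.add_sub_cancel, nsmul_eq_mul, mul_one] at h1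
  rcases Nat.eq_zero_or_pos J with rfl | hJ
  · simp
  · have hJ' : (0 : ℝ) < J := by exact_mod_cast hJ
    rw [one_div, inv_mul_le_iff₀ hJ', mul_one]
    exact h1

lemma w_ge {J k : ℕ} (hJ : 1 ≤ J) (hk : k ≤ 2 ^ (J - 1)) : 1 / (2 * J : ℝ) ≤ w J k := by
  unfold w
  have hJ' : (0 : ℝ) < J := by exact_mod_cast hJ
  have h1 : (1 / 2 : ℝ) ≤ ∑ j ∈ Finset.Icc 1 J, max 0 (1 - (k : ℝ) / 2 ^ j) := by
    refine le_trans ?_ (Finset.single_le_sum (f := fun j => max 0 (1 - (k : ℝ) / 2 ^ j))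
      (fun _ _ => le_max_left _ _) (Finset.mem_Icc.mpr ⟨hJ, le_refl J⟩))
    refine le_trans ?_ (le_max_right _ _)
    have h2 : (k : ℝ) ≤ 2 ^ (J - 1) := by exact_mod_cast hk
    have h3 : (2 : ℝ) ^ J = 2 * 2 ^ (J - 1) := by
      rw [← pow_succ']
      congr 1
      omega
    have h4 : (k : ℝ) / 2 ^ J ≤ 1 / 2 := by
      rw [h3, div_le_div_iff₀ (by positivity) (by norm_num)]
      linarith
    linarith
  calc 1 / (2 * J : ℝ) = (1 / J : ℝ) * (1 / 2) := by field_simp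
    _ ≤ _ := by gcongr

lemma u_one (J k : ℕ) : u J 1 k = w J k := by
  unfold u
  simp

lemma u_nonneg (J K k : ℕ) : 0 ≤ u J K k := by
  unfold u
  exact mul_nonneg (by positivity) (Finset.sum_nonneg fun _ _ => w_nonneg _ _)

/-- the linear functional of the gaps outside of the block `0 ≤ k < K` -/
def GG (J K : ℕ) (ω : ℤ → ℝ) : ℝ :=
  ∑ k ∈ Finset.Icc 1 (2 ^ J), u J K k * ((ω (-(k : ℤ)) - 1) + (ω ((K : ℤ) - 1 + k) - 1))

/-- the difference between the block sum and its linear prediction -/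
def LL (J K : ℕ) (ω : ℤ → ℝ) : ℝ :=
  ∑ i ∈ Finset.range K, (ω (i : ℤ) - 1) + GG J K ω

lemma measurable_GG (J K : ℕ) : Measurable (GG J K) := by
  unfold GG
  fun_prop

lemma continuous_LL (J K : ℕ) : Continuous (LL J K) := by
  unfold LL GG
  fun_prop

lemma LL_seen (d : ℕ → ℝ) {J K n : ℕ} (hK : 1 ≤ K) (hn : 2 ^ J < n) :
    LL J K (seen d n) = ∑ i ∈ Finset.range K, (d (n + i) - 1) + ∑ k ∈ Finset.Icc 1 (2 ^ J),
      u J K k * ((d (n - k) - 1) + (d (n + K - 1 + k) - 1)) := by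
  have h2J : 1 ≤ 2 ^ J := Nat.one_le_two_pow
  have hn1 : 1 ≤ n := by omega
  unfold LL GG
  congr 1
  · refine Finset.sum_congr rfl fun i _ => ?_
    rw [seen_add d n i hn1]
  · refine Finset.sum_congr rfl fun k hk => ?_
    rw [Finset.mem_Icc] at hk
    rw [seen_neg d n k (by omega)]
    have e : (K : ℤ) - 1 + k = ((K - 1 + k : ℕ) : ℤ) := by omega
    rw [e, seen_add d n _ hn1, show n + (K - 1 + k) = n + K - 1 + k by omega]

/-- the hypothesis of rigidity, with the constant `C` -/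
def RigidSeq (d : ℕ → ℝ) (C : ℝ) : Prop :=
  ∀ J K : ℕ, 1 ≤ J → 1 ≤ K → ∀ᶠ N : ℕ in atTop,
    ∑ n ∈ Finset.Ioc (2 ^ J) N,
      |∑ i ∈ Finset.range K, (d (n + i) - 1) + ∑ k ∈ Finset.Icc 1 (2 ^ J),
        u J K k * ((d (n - k) - 1) + (d (n + K - 1 + k) - 1))| ≤
      C * (1 / Real.sqrt J + K * (1 + Real.log K) / J) * N

lemma RigidSeq.ev {d : ℕ → ℝ} {C : ℝ} (h : RigidSeq d C) {J K : ℕ} (hJ : 1 ≤ J) (hK : 1 ≤ K)
    (ε : ℝ) (hε : 0 < ε) : ∀ᶠ N : ℕ in atTop, ∑ n ∈ Finset.Icc 1 N, |LL J K (seen d n)| ≤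
      (C * (1 / Real.sqrt J + K * (1 + Real.log K) / J) + ε) * N := by
  refine ev_of_tail (fun _ => abs_nonneg _) (2 ^ J) (fun ε hε => ?_) ε hε
  filter_upwards [h J K hJ hK] with N hN
  refine le_trans (le_of_eq ?_) (hN.trans ?_)
  · refine Finset.sum_congr rfl fun n hn => ?_
    rw [Finset.mem_Ioc] at hn
    rw [LL_seen d hK hn.1]
  · gcongr
    linarith

theorem rigid {d : ℕ → ℝ} {C : ℝ} (h : RigidSeq d C) {P : ProbabilityMeasure (ℤ → ℝ)}
    (hP : IsLim (seen d) P) {J K : ℕ} (hJ : 1 ≤ J) (hK : 1 ≤ K) :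
    Integrable (fun ω => |LL J K ω|) (P : Measure (ℤ → ℝ)) ∧
    ∫ ω, |LL J K ω| ∂(P : Measure (ℤ → ℝ)) ≤
      C * (1 / Real.sqrt J + K * (1 + Real.log K) / J) :=
  fatou hP (continuous_LL J K).abs (fun _ => abs_nonneg _) (h.ev hJ hK)

lemma tendsto_err (C : ℝ) (K : ℕ) :
    Tendsto (fun J : ℕ => C * (1 / Real.sqrt J + K * (1 + Real.log K) / J)) atTop (𝓝 0) := by
  have h1 : Tendsto (fun J : ℕ => 1 / Real.sqrt J) atTop (𝓝 0) := by
    have := (Real.tendsto_sqrt_atTop.comp tendsto_natCast_atTop_atTop)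
    simp only [one_div]
    exact this.inv_tendsto_atTop
  have h2 := tendsto_const_div_atTop_nhds_zero_nat ((K : ℝ) * (1 + Real.log K))
  have h3 := (h1.add h2).const_mul C
  simpa using h3

lemma le_zero_of_err {C a : ℝ} {K : ℕ}
    (h : ∀ J : ℕ, 1 ≤ J → a ≤ C * (1 / Real.sqrt J + K * (1 + Real.log K) / J)) : a ≤ 0 :=
  ge_of_tendsto (tendsto_err C K) (by
    filter_upwards [eventually_ge_atTop 1] with J hJ
    exact h J hJ)

/-- the mean of the gap is one on every invariant event -/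
theorem mean_one {d : ℕ → ℝ} {C : ℝ} (h : RigidSeq d C) {P : ProbabilityMeasure (ℤ → ℝ)}
    (hP : IsLim (seen d) P)
    (hint : ∀ k : ℤ, Integrable (fun ω : ℤ → ℝ => ω k) (P : Measure (ℤ → ℝ)))
    {A : Set (ℤ → ℝ)} (hA : MeasurableSet A) (hinv : shift ⁻¹' A = A) :
    ∫ ω in A, ω 0 ∂(P : Measure (ℤ → ℝ)) = (P : Measure (ℤ → ℝ)).real A := by
  have hint1 : ∀ k : ℤ, Integrable (fun ω : ℤ → ℝ => ω k - 1) (P : Measure (ℤ → ℝ)) :=
    fun k => (hint k).sub (integrable_const 1)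
  obtain ⟨x, hx⟩ : ∃ x : ℤ → ℝ, x = fun k => ∫ ω in A, (ω k - 1) ∂(P : Measure (ℤ → ℝ)) :=
    ⟨_, rfl⟩
  have hstep : ∀ k, x (k + 1) = x k := by
    intro k
    have hm : Measurable (fun ω : ℤ → ℝ => ω k - 1) := by fun_prop
    have h1 := setIntegral_map (μ := (P : Measure (ℤ → ℝ))) (g := shift) hA
      (f := fun ω : ℤ → ℝ => ω k - 1) hm.aestronglyMeasurable measurable_shift.aemeasurable
    rw [map_shift hP, hinv] at h1
    rw [hx]
    exact h1.symm
  have hconst : ∀ k, x k = x 0 := by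
    intro k
    induction k using Int.induction_on with
    | zero => rfl
    | succ i ih => rw [hstep, ih]
    | pred i ih =>
      rw [← ih]
      have := hstep (-(i : ℤ) - 1)
      rw [sub_add_cancel] at this
      exact this.symm
  have hI : ∀ J : ℕ, ∫ ω in A, LL J 1 ω ∂(P : Measure (ℤ → ℝ)) =
      x 0 * (1 + 2 * ∑ k ∈ Finset.Icc 1 (2 ^ J), u J 1 k) := by
    intro J
    have hi : ∀ k : ℤ, Integrable (fun ω : ℤ → ℝ => ω k - 1)
        ((P : Measure (ℤ → ℝ)).restrict A) := fun k => (hint1 k).restrict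
    unfold LL GG
    rw [integral_add, integral_finsetSum, integral_finsetSum]
    · have e1 : ∀ k ∈ Finset.Icc 1 (2 ^ J), ∫ ω in A, u J 1 k * ((ω (-(k : ℤ)) - 1) +
          (ω (((1 : ℕ) : ℤ) - 1 + k) - 1)) ∂(P : Measure (ℤ → ℝ)) = u J 1 k * (2 * x 0) := by
        intro k _
        rw [integral_const_mul, integral_add (hi _) (hi _)]
        have e2 : ∫ ω in A, (ω (-(k : ℤ)) - 1) ∂(P : Measure (ℤ → ℝ)) = x 0 := by
          rw [← hconst (-(k : ℤ)), hx]
        have e3 : ∫ ω in A, (ω (((1 : ℕ) : ℤ) - 1 + k) - 1) ∂(P : Measure (ℤ → ℝ)) = x 0 := by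
          rw [← hconst (((1 : ℕ) : ℤ) - 1 + k), hx]
        rw [e2, e3]
        ring
      rw [Finset.sum_congr rfl e1, Finset.sum_range_one, ← Finset.sum_mul]
      have e4 : ∫ ω in A, (ω ((0 : ℕ) : ℤ) - 1) ∂(P : Measure (ℤ → ℝ)) = x 0 := by
        rw [hx]
        rfl
      rw [e4]
      ring
    · intro k _
      exact ((hi _).add (hi _)).const_mul _
    · intro i _
      exact hi _
    · exact integrable_finsetSum _ fun i _ => hi _
    · exact integrable_finsetSum _ fun k _ => ((hi _).add (hi _)).const_mul _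
  have hx0 : |x 0| ≤ 0 := by
    refine le_zero_of_err (C := C) (K := 1) fun J hJ => ?_
    obtain ⟨r1, r2⟩ := rigid h hP hJ (le_refl 1)
    have h1 : |∫ ω in A, LL J 1 ω ∂(P : Measure (ℤ → ℝ))| ≤
        ∫ ω, |LL J 1 ω| ∂(P : Measure (ℤ → ℝ)) := by
      refine (abs_integral_le_integral_abs).trans ?_
      exact setIntegral_le_integral r1 (Filter.Eventually.of_forall fun _ => abs_nonneg _)
    rw [hI J, abs_mul] at h1
    have h2 : 1 ≤ |1 + 2 * ∑ k ∈ Finset.Icc 1 (2 ^ J), u J 1 k| := by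
      have h3 : 0 ≤ ∑ k ∈ Finset.Icc 1 (2 ^ J), u J 1 k :=
        Finset.sum_nonneg fun _ _ => u_nonneg _ _ _
      rw [abs_of_nonneg (by linarith)]
      linarith
    have h4 : |x 0| ≤ |x 0| * |1 + 2 * ∑ k ∈ Finset.Icc 1 (2 ^ J), u J 1 k| :=
      le_mul_of_one_le_right (abs_nonneg _) h2
    exact h4.trans (h1.trans r2)
  have hx1 : x 0 = 0 := abs_nonpos_iff.mp hx0
  rw [hx] at hx1
  simp only at hx1
  rw [integral_sub (hint 0).restrict (integrable_const 1).restrict, sub_eq_zero] at hx1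
  rw [hx1]
  simp

/-- the block sum is almost surely a function of the gaps outside of the block, the same function
for all limits -/
theorem det {K : ℕ} (hK : 1 ≤ K) : ∃ F : (ℤ → ℝ) → ℝ, Measurable F ∧
    (∀ ω ω' : ℤ → ℝ, (∀ k : ℤ, (k < 0 ∨ (K : ℤ) ≤ k) → ω k = ω' k) → F ω = F ω') ∧
    ∀ (d : ℕ → ℝ) (C : ℝ), RigidSeq d C → ∀ P : ProbabilityMeasure (ℤ → ℝ), IsLim (seen d) P →
      ∀ᵐ ω ∂(P : Measure (ℤ → ℝ)), ∑ i ∈ Finset.range K, ω (i : ℤ) = F ω := by
  refine ⟨fun ω => limsup (fun m : ℕ => (K : ℝ) - GG (4 ^ m) K ω) atTop, ?_, ?_, ?_⟩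
  · exact Measurable.limsup fun m => measurable_const.sub (measurable_GG _ _)
  · intro ω ω' hω
    have e : ∀ m : ℕ, GG (4 ^ m) K ω = GG (4 ^ m) K ω' := by
      intro m
      unfold GG
      refine Finset.sum_congr rfl fun k hk => ?_
      rw [Finset.mem_Icc] at hk
      rw [hω (-(k : ℤ)) (Or.inl (by omega)), hω ((K : ℤ) - 1 + k) (Or.inr (by omega))]
    simp only [e]
  · intro d C h P hP
    obtain ⟨b, hb⟩ : ∃ b : ℕ → ℝ, b = fun m : ℕ =>
      C * (1 / Real.sqrt ((4 ^ m : ℕ) : ℝ) + K * (1 + Real.log K) / ((4 ^ m : ℕ) : ℝ)) := ⟨_, rfl⟩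
    have hbs : Summable b := by
      have e : b = fun m : ℕ => C * ((1 / 2 : ℝ) ^ m + K * (1 + Real.log K) * (1 / 4 : ℝ) ^ m) := by
        rw [hb]
        funext m
        have h4 : Real.sqrt ((4 ^ m : ℕ) : ℝ) = 2 ^ m := by
          rw [show ((4 ^ m : ℕ) : ℝ) = (2 ^ m) ^ 2 by
            push_cast
            rw [← pow_mul, mul_comm, pow_mul]
            norm_num]
          exact Real.sqrt_sq (by positivity)
        rw [h4]
        push_cast
        rw [one_div_pow, one_div_pow]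
        ring
      rw [e]
      refine Summable.mul_left _ ?_
      refine (summable_geometric_of_lt_one (by norm_num) (by norm_num)).add ?_
      exact (summable_geometric_of_lt_one (by norm_num) (by norm_num)).mul_left _
    have hr : ∀ m : ℕ, Integrable (fun ω => |LL (4 ^ m) K ω|) (P : Measure (ℤ → ℝ)) ∧
        ∫ ω, |LL (4 ^ m) K ω| ∂(P : Measure (ℤ → ℝ)) ≤ b m := fun m => by
      rw [hb]
      exact rigid h hP (Nat.one_le_pow _ _ (by norm_num)) hK
    have hb0 : ∀ m, 0 ≤ b m := fun m => (integral_nonneg fun _ => abs_nonneg _).trans (hr m).2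
    have hsum : ∫⁻ ω, ∑' m, ENNReal.ofReal |LL (4 ^ m) K ω| ∂(P : Measure (ℤ → ℝ)) ≠ ⊤ := by
      rw [lintegral_tsum]
      · have h1 : ∀ m, ∫⁻ ω, ENNReal.ofReal |LL (4 ^ m) K ω| ∂(P : Measure (ℤ → ℝ)) ≤
            ENNReal.ofReal (b m) := by
          intro m
          rw [← ofReal_integral_eq_lintegral_ofReal (hr m).1
            (Filter.Eventually.of_forall fun _ => abs_nonneg _)]
          exact ENNReal.ofReal_le_ofReal (hr m).2
        refine ne_top_of_le_ne_top ?_ (ENNReal.tsum_le_tsum h1)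
        rw [← ENNReal.ofReal_tsum_of_nonneg hb0 hbs]
        exact ENNReal.ofReal_ne_top
      · intro m
        exact ((continuous_LL _ _).abs.measurable.ennreal_ofReal).aemeasurable
    have hae := ae_lt_top' (AEMeasurable.tsum fun m =>
      ((continuous_LL (4 ^ m) K).abs.measurable.ennreal_ofReal).aemeasurable) hsum
    filter_upwards [hae] with ω hω
    have h1 := ENNReal.tendsto_atTop_zero_of_tsum_ne_top hω.ne
    have h2 : Tendsto (fun m : ℕ => |LL (4 ^ m) K ω|) atTop (𝓝 0) := by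
      have h3 := (ENNReal.tendsto_toReal ENNReal.zero_ne_top).comp h1
      simp only [ENNReal.toReal_zero] at h3
      refine h3.congr fun m => ?_
      simp only [Function.comp]
      rw [ENNReal.toReal_ofReal (abs_nonneg _)]
    replace h2 : Tendsto (fun m : ℕ => LL (4 ^ m) K ω) atTop (𝓝 0) :=
      (tendsto_zero_iff_abs_tendsto_zero _).2 h2
    have h4 : Tendsto (fun m : ℕ => (K : ℝ) - GG (4 ^ m) K ω) atTop
        (𝓝 (∑ i ∈ Finset.range K, ω (i : ℤ))) := by
      have h5 := h2.const_sub (∑ i ∈ Finset.range K, ω (i : ℤ))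
      rw [sub_zero] at h5
      refine h5.congr fun m => ?_
      unfold LL
      rw [Finset.sum_sub_distrib]
      simp
      ring
    exact h4.limsup_eq.symm

end

end Q172.ZetaLim
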