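import Pool.Agent.Q172.ZetaLim.Rigid

/-!
# The limits are not exchangeable
-/

set_option autoImplicit false

namespace Q172.ZetaLim

open MeasureTheory Filter Topology Set
open scoped NNReal ENNReal

noncomputable section

/-- exchange of two coordinates -/
def sw (a b : ℤ) (ω : ℤ → ℝ) : ℤ → ℝ := fun k => ω (Equiv.swap a b k)

lemma continuous_sw (a b : ℤ) : Continuous (sw a b) :=
  continuous_pi fun k => continuous_apply (Equiv.swap a b k)

lemma integral_sw {P : ProbabilityMeasure (ℤ → ℝ)} {a b : ℤ}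
    (h : (P : Measure (ℤ → ℝ)).map (sw a b) = P) {F : (ℤ → ℝ) → ℝ} (hF : Measurable F) :
    ∫ ω, F (sw a b ω) ∂(P : Measure (ℤ → ℝ)) = ∫ ω, F ω ∂(P : Measure (ℤ → ℝ)) := by
  have h1 := integral_map (μ := (P : Measure (ℤ → ℝ))) (φ := sw a b)
    (continuous_sw a b).measurable.aemeasurable (f := F) hF.aestronglyMeasurable
  rw [h] at h1
  exact h1.symm

lemma integrable_sw {P : ProbabilityMeasure (ℤ → ℝ)} {a b : ℤ}
    (h : (P : Measure (ℤ → ℝ)).map (sw a b) = P) {F : (ℤ → ℝ) → ℝ}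
    (hF : Integrable F (P : Measure (ℤ → ℝ))) :
    Integrable (fun ω => F (sw a b ω)) (P : Measure (ℤ → ℝ)) := by
  have h1 : Integrable F ((P : Measure (ℤ → ℝ)).map (sw a b)) := by rw [h]; exact hF
  exact h1.comp_measurable (continuous_sw a b).measurable

theorem not_exch {d : ℕ → ℝ} {C : ℝ} (h : RigidSeq d C) {P : ProbabilityMeasure (ℤ → ℝ)}
    (hP : IsLim (seen d) P)
    (hint : ∀ k : ℤ, Integrable (fun ω : ℤ → ℝ => ω k) (P : Measure (ℤ → ℝ)))
    (hsp : 0 < ∫ ω, |ω 0 - 1| ∂(P : Measure (ℤ → ℝ))) :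
    ¬ ∀ a b : ℤ, (P : Measure (ℤ → ℝ)).map (sw a b) = P := by
  intro hex
  obtain ⟨D, hD⟩ : ∃ D : ℤ → ℝ, D = fun k => ∫ ω, |ω 0 - ω k| ∂(P : Measure (ℤ → ℝ)) := ⟨_, rfl⟩
  have hintD : ∀ k : ℤ, Integrable (fun ω : ℤ → ℝ => |ω 0 - ω k|) (P : Measure (ℤ → ℝ)) :=
    fun k => ((hint 0).sub (hint k)).abs
  -- all the `D k`, `k ≠ 0`, are equal
  have hDeq : ∀ j k : ℤ, j ≠ 0 → k ≠ 0 → D j = D k := by
    intro j k hj hk
    have hm : Measurable (fun ω : ℤ → ℝ => |ω 0 - ω k|) := by fun_prop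
    have h1 := integral_sw (hex j k) hm
    have e : ∀ ω : ℤ → ℝ, |sw j k ω 0 - sw j k ω k| = |ω 0 - ω j| := by
      intro ω
      unfold sw
      rw [Equiv.swap_apply_of_ne_of_ne (Ne.symm hj) (Ne.symm hk), Equiv.swap_apply_right]
    simp only [e] at h1
    rw [hD]
    exact h1
  -- the bound by rigidity
  have hDle : ∀ J : ℕ, 1 ≤ J → D 1 ≤
      (2 * C) * (1 / Real.sqrt J + (1 : ℕ) * (1 + Real.log (1 : ℕ)) / J) := by
    intro J hJ
    obtain ⟨r1, r2⟩ := rigid h hP hJ (le_refl 1)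
    obtain ⟨m, hm⟩ : ∃ m : ℤ, m = 2 ^ J + 1 := ⟨_, rfl⟩
    have h2J : (0 : ℤ) < 2 ^ J := by positivity
    have hm0 : m ≠ 0 := by omega
    rw [hDeq 1 m (by norm_num) hm0]
    have e : ∀ ω : ℤ → ℝ, ω 0 - ω m = LL J 1 ω - LL J 1 (sw 0 m ω) := by
      intro ω
      have e1 : GG J 1 (sw 0 m ω) = GG J 1 ω := by
        unfold GG
        refine Finset.sum_congr rfl fun k hk => ?_
        rw [Finset.mem_Icc] at hk
        have hk2 : (k : ℤ) ≤ 2 ^ J := by exact_mod_cast hk.2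
        unfold sw
        rw [Equiv.swap_apply_of_ne_of_ne (by omega) (by omega),
          Equiv.swap_apply_of_ne_of_ne (by push_cast; omega) (by push_cast; omega)]
      unfold LL
      rw [e1, Finset.sum_range_one, Finset.sum_range_one]
      unfold sw
      rw [Nat.cast_zero, Equiv.swap_apply_left]
      ring
    have h1 : ∀ ω : ℤ → ℝ, |ω 0 - ω m| ≤ |LL J 1 ω| + |LL J 1 (sw 0 m ω)| := fun ω => by
      rw [e ω]
      exact abs_sub _ _
    have r3 := integrable_sw (hex 0 m) r1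
    have r4 := integral_sw (hex 0 m) (continuous_LL J 1).abs.measurable
    rw [hD]
    have h2 := integral_mono (hintD m) (r1.add r3) h1
    simp only [Pi.add_apply] at h2
    rw [integral_add r1 r3, r4] at h2
    simp only
    linarith
  have hD0 : ∀ k : ℤ, ∀ᵐ ω ∂(P : Measure (ℤ → ℝ)), ω k = ω 0 := by
    intro k
    rcases eq_or_ne k 0 with rfl | hk
    · exact Filter.Eventually.of_forall fun _ => rfl
    have h1 : D k ≤ 0 := by
      rw [hDeq k 1 hk (by norm_num)]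
      exact le_zero_of_err hDle
    have h2 : D k = 0 := le_antisymm h1 (by
      rw [hD]
      exact integral_nonneg fun _ => abs_nonneg _)
    rw [hD] at h2
    have h3 := (integral_eq_zero_iff_of_nonneg (f := fun ω : ℤ → ℝ => |ω 0 - ω k|)
      (fun _ => abs_nonneg _) (hintD k)).1 h2
    filter_upwards [h3] with ω hω
    simp only [Pi.zero_apply, abs_eq_zero] at hω
    linarith
  have hall : ∀ᵐ ω ∂(P : Measure (ℤ → ℝ)), ∀ k : ℤ, ω k = ω 0 := ae_all_iff.2 hD0
  have hle : ∫ ω, |ω 0 - 1| ∂(P : Measure (ℤ → ℝ)) ≤ 0 := by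
    refine le_zero_of_err (C := C) (K := 1) fun J hJ => ?_
    obtain ⟨r1, r2⟩ := rigid h hP hJ (le_refl 1)
    refine le_trans ?_ r2
    refine integral_mono_ae ((hint 0).sub (integrable_const 1)).abs r1 ?_
    filter_upwards [hall] with ω hω
    have e : LL J 1 ω = (ω 0 - 1) * (1 + 2 * ∑ k ∈ Finset.Icc 1 (2 ^ J), u J 1 k) := by
      unfold LL GG
      rw [Finset.sum_range_one, Nat.cast_zero, mul_add, mul_one, Finset.mul_sum, Finset.mul_sum]
      congr 1
      refine Finset.sum_congr rfl fun k _ => ?_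
      rw [hω (-(k : ℤ)), hω (((1 : ℕ) : ℤ) - 1 + k)]
      ring
    have h3 : 0 ≤ ∑ k ∈ Finset.Icc 1 (2 ^ J), u J 1 k :=
      Finset.sum_nonneg fun _ _ => u_nonneg _ _ _
    rw [e, abs_mul]
    refine le_mul_of_one_le_right (abs_nonneg _) ?_
    rw [abs_of_nonneg (by linarith)]
    linarith
  linarith

end

end Q172.ZetaLim
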