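import Pool.Agent.Q172.ZetaLim.Seq

/-!
# Frequencies of intervals and the one-dimensional marginals of the limits
-/

set_option autoImplicit false

namespace Q172.ZetaLim

open MeasureTheory Filter Topology Set
open scoped NNReal ENNReal

noncomputable section

/-- trapezoid function -/
def trap (a b η x : ℝ) : ℝ := max 0 (min 1 (min ((x - a) / η) ((b - x) / η)))

lemma trap_nonneg (a b η x : ℝ) : 0 ≤ trap a b η x := le_max_left _ _

lemma trap_le_one (a b η x : ℝ) : trap a b η x ≤ 1 :=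
  max_le zero_le_one (min_le_left _ _)

lemma abs_trap (a b η x : ℝ) : |trap a b η x| ≤ 1 := by
  rw [abs_of_nonneg (trap_nonneg _ _ _ _)]
  exact trap_le_one _ _ _ _

lemma continuous_trap (a b η : ℝ) : Continuous (trap a b η) := by
  unfold trap
  fun_prop

lemma trap_eq_one {a b η x : ℝ} (hη : 0 < η) (h1 : a + η ≤ x) (h2 : x ≤ b - η) :
    trap a b η x = 1 := by
  unfold trap
  have h3 : 1 ≤ (x - a) / η := by rw [le_div_iff₀ hη]; linarith
  have h4 : 1 ≤ (b - x) / η := by rw [le_div_iff₀ hη]; linarith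
  rw [min_eq_left (le_min h3 h4), max_eq_right zero_le_one]

lemma trap_eq_zero {a b η x : ℝ} (hη : 0 < η) (h : ¬ (a ≤ x ∧ x ≤ b)) : trap a b η x = 0 := by
  unfold trap
  refine max_eq_left ?_
  by_cases h1 : a ≤ x
  · have h2 : b < x := by
      by_contra hcon
      exact h ⟨h1, not_lt.1 hcon⟩
    refine (min_le_right _ _).trans ((min_le_right _ _).trans ?_)
    exact div_nonpos_of_nonpos_of_nonneg (by linarith) hη.le
  · refine (min_le_right _ _).trans ((min_le_left _ _).trans ?_)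
    exact div_nonpos_of_nonpos_of_nonneg (by linarith) hη.le

/-- frequency of an interval -/
def freq (d : ℕ → ℝ) (a b : ℝ) (N : ℕ) : ℝ :=
  (((Finset.Icc 1 N).filter fun n => a ≤ d n ∧ d n ≤ b).card : ℝ) / N

lemma freq_eq (d : ℕ → ℝ) (a b : ℝ) (N : ℕ) :
    freq d a b N = (∑ n ∈ Finset.Icc 1 N, if a ≤ d n ∧ d n ≤ b then (1 : ℝ) else 0) / N := by
  unfold freq
  rw [Finset.sum_boole]

lemma av_zero (d : ℕ → ℝ) (N : ℕ) (g : ℝ → ℝ) :
    av (seen d) N (fun ω => g (ω 0)) = (∑ n ∈ Finset.Icc 1 N, g (d n)) / N := by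
  unfold av
  congr 1
  refine Finset.sum_congr rfl fun n hn => ?_
  rw [Finset.mem_Icc] at hn
  have := seen_add d n 0 hn.1
  rw [Nat.cast_zero, add_zero] at this
  simp only [this]

lemma av_trap_le (d : ℕ → ℝ) (a b : ℝ) {η : ℝ} (hη : 0 < η) (N : ℕ) :
    av (seen d) N (fun ω => trap a b η (ω 0)) ≤ freq d a b N := by
  rw [av_zero, freq_eq]
  refine div_le_div_of_nonneg_right (Finset.sum_le_sum fun n _ => ?_) (Nat.cast_nonneg _)
  split_ifs with h
  · exact trap_le_one _ _ _ _
  · rw [trap_eq_zero hη h]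

lemma le_av_trap (d : ℕ → ℝ) (a b : ℝ) {η : ℝ} (hη : 0 < η) (N : ℕ) :
    freq d a b N ≤ av (seen d) N (fun ω => trap (a - η) (b + η) η (ω 0)) := by
  rw [av_zero, freq_eq]
  refine div_le_div_of_nonneg_right (Finset.sum_le_sum fun n _ => ?_) (Nat.cast_nonneg _)
  split_ifs with h
  · rw [trap_eq_one hη (by linarith [h.1]) (by linarith [h.2])]
  · exact trap_nonneg _ _ _ _

lemma measurableSet_int (a b : ℝ) : MeasurableSet {ω : ℤ → ℝ | a ≤ ω 0 ∧ ω 0 ≤ b} :=
  (measurableSet_le measurable_const (measurable_pi_apply 0)).inter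
    (measurableSet_le (measurable_pi_apply 0) measurable_const)

lemma continuous_trap0 (a b η : ℝ) : Continuous (fun ω : ℤ → ℝ => trap a b η (ω 0)) :=
  (continuous_trap a b η).comp (continuous_apply 0)

lemma int_trap_le (P : ProbabilityMeasure (ℤ → ℝ)) (a b : ℝ) {η : ℝ} (hη : 0 < η) :
    ∫ ω, trap a b η (ω 0) ∂(P : Measure (ℤ → ℝ)) ≤
      (P : Measure (ℤ → ℝ)).real {ω | a ≤ ω 0 ∧ ω 0 ≤ b} := by
  rw [← integral_indicator_one (measurableSet_int a b)]
  refine integral_mono (integrable_of_bdd P (continuous_trap0 a b η).measurable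
    fun _ => abs_trap _ _ _ _) ?_ fun ω => ?_
  · exact (integrable_indicator_iff (measurableSet_int a b)).mpr
      (integrable_const _).integrableOn
  · by_cases h : a ≤ ω 0 ∧ ω 0 ≤ b
    · rw [Set.indicator_of_mem (show ω ∈ {ω : ℤ → ℝ | a ≤ ω 0 ∧ ω 0 ≤ b} from h)]
      exact trap_le_one _ _ _ _
    · rw [Set.indicator_of_notMem (show ω ∉ {ω : ℤ → ℝ | a ≤ ω 0 ∧ ω 0 ≤ b} from h)]
      simp only
      rw [trap_eq_zero hη h]

lemma le_int_trap (P : ProbabilityMeasure (ℤ → ℝ)) (a b : ℝ) {η : ℝ} (hη : 0 < η) :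
    (P : Measure (ℤ → ℝ)).real {ω | a ≤ ω 0 ∧ ω 0 ≤ b} ≤
      ∫ ω, trap (a - η) (b + η) η (ω 0) ∂(P : Measure (ℤ → ℝ)) := by
  rw [← integral_indicator_one (measurableSet_int a b)]
  refine integral_mono ?_ (integrable_of_bdd P (continuous_trap0 _ _ η).measurable
    fun _ => abs_trap _ _ _ _) fun ω => ?_
  · exact (integrable_indicator_iff (measurableSet_int a b)).mpr
      (integrable_const _).integrableOn
  · by_cases h : a ≤ ω 0 ∧ ω 0 ≤ b
    · rw [Set.indicator_of_mem (show ω ∈ {ω : ℤ → ℝ | a ≤ ω 0 ∧ ω 0 ≤ b} from h)]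
      simp only [Pi.one_apply]
      rw [trap_eq_one hη (by linarith [h.1]) (by linarith [h.2])]
    · rw [Set.indicator_of_notMem (show ω ∉ {ω : ℤ → ℝ | a ≤ ω 0 ∧ ω 0 ≤ b} from h)]
      exact trap_nonneg _ _ _ _

/-- The frequencies of all intervals `[a, b]`, `0 < a < b`, converge to `G b - G a` if and only if
all limits have this one-dimensional marginal. -/
theorem freq_iff {d : ℕ → ℝ}
    (ht : ∀ ε : ℝ, 0 < ε → ∃ Q : Set (ℤ → ℝ), IsCompact Q ∧
      ∀ N, (law (seen d) N : Measure (ℤ → ℝ)).real Qᶜ ≤ ε)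
    {G : ℝ → ℝ} (hG : ∀ x, 0 < x → ContinuousAt G x) :
    (∀ a b : ℝ, 0 < a → a < b → Tendsto (freq d a b) atTop (𝓝 (G b - G a))) ↔
    ∀ P : ProbabilityMeasure (ℤ → ℝ), IsLim (seen d) P → ∀ a b : ℝ, 0 < a → a < b →
      (P : Measure (ℤ → ℝ)).real {ω | a ≤ ω 0 ∧ ω 0 ≤ b} = G b - G a := by
  -- continuity in the endpoints
  have hup : ∀ a b : ℝ, 0 < a → a < b →
      Tendsto (fun η : ℝ => G (b + η) - G (a - η)) (𝓝[>] 0) (𝓝 (G b - G a)) := by
    intro a b ha hab
    have h1 : Tendsto (fun η : ℝ => b + η) (𝓝[>] 0) (𝓝 b) := by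
      have : Tendsto (fun η : ℝ => b + η) (𝓝 0) (𝓝 (b + 0)) :=
        (continuous_const.add continuous_id).tendsto 0
      rw [add_zero] at this
      exact this.mono_left nhdsWithin_le_nhds
    have h2 : Tendsto (fun η : ℝ => a - η) (𝓝[>] 0) (𝓝 a) := by
      have : Tendsto (fun η : ℝ => a - η) (𝓝 0) (𝓝 (a - 0)) :=
        (continuous_const.sub continuous_id).tendsto 0
      rw [sub_zero] at this
      exact this.mono_left nhdsWithin_le_nhds
    exact ((hG b (by linarith)).tendsto.comp h1).sub ((hG a ha).tendsto.comp h2)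
  have hdn : ∀ a b : ℝ, 0 < a → a < b →
      Tendsto (fun η : ℝ => G (b - η) - G (a + η)) (𝓝[>] 0) (𝓝 (G b - G a)) := by
    intro a b ha hab
    have h1 : Tendsto (fun η : ℝ => b - η) (𝓝[>] 0) (𝓝 b) := by
      have : Tendsto (fun η : ℝ => b - η) (𝓝 0) (𝓝 (b - 0)) :=
        (continuous_const.sub continuous_id).tendsto 0
      rw [sub_zero] at this
      exact this.mono_left nhdsWithin_le_nhds
    have h2 : Tendsto (fun η : ℝ => a + η) (𝓝[>] 0) (𝓝 a) := by
      have : Tendsto (fun η : ℝ => a + η) (𝓝 0) (𝓝 (a + 0)) :=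
        (continuous_const.add continuous_id).tendsto 0
      rw [add_zero] at this
      exact this.mono_left nhdsWithin_le_nhds
    exact ((hG b (by linarith)).tendsto.comp h1).sub ((hG a ha).tendsto.comp h2)
  have hsmall : ∀ a b : ℝ, 0 < a → a < b → ∀ᶠ η : ℝ in 𝓝[>] 0,
      0 < η ∧ 0 < a - η ∧ a + η < b - η := by
    intro a b ha hab
    have h1 : Set.Ioo (0 : ℝ) (min a ((b - a) / 2)) ∈ 𝓝[>] (0 : ℝ) :=
      Ioo_mem_nhdsGT (lt_min ha (by linarith))
    filter_upwards [h1] with η hη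
    have h2 := lt_of_lt_of_le hη.2 (min_le_left _ _)
    have h3 := lt_of_lt_of_le hη.2 (min_le_right _ _)
    exact ⟨hη.1, by linarith, by linarith⟩
  constructor
  · intro hf P hP a b ha hab
    obtain ⟨φ, h1, h2⟩ := hP
    have htr : ∀ a b η : ℝ, Tendsto (fun j => av (seen d) (φ j) (fun ω => trap a b η (ω 0))) atTop
        (𝓝 (∫ ω, trap a b η (ω 0) ∂(P : Measure (ℤ → ℝ)))) := fun a b η =>
      h2 (BoundedContinuousFunction.ofNormedAddCommGroup (fun ω : ℤ → ℝ => trap a b η (ω 0))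
        (continuous_trap0 a b η) 1 fun ω => abs_trap _ _ _ _)
    refine le_antisymm ?_ ?_
    · refine ge_of_tendsto (hup a b ha hab) ?_
      filter_upwards [hsmall a b ha hab] with η hη
      refine (le_int_trap P a b hη.1).trans ?_
      exact le_of_tendsto_of_tendsto' (htr _ _ _)
        ((hf (a - η) (b + η) hη.2.1 (by linarith [hη.1])).comp h1.tendsto_atTop)
        fun j => av_trap_le d _ _ hη.1 _
    · refine le_of_tendsto (hdn a b ha hab) ?_
      filter_upwards [hsmall a b ha hab] with η hη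
      refine le_trans ?_ (int_trap_le P a b hη.1)
      refine le_of_tendsto_of_tendsto'
        ((hf (a + η) (b - η) (by linarith [hη.1]) hη.2.2).comp h1.tendsto_atTop) (htr _ _ _)
        fun j => ?_
      have := le_av_trap d (a + η) (b - η) hη.1 (φ j)
      rw [add_sub_cancel_right, sub_add_cancel] at this
      exact this
  · intro hP a b ha hab
    rw [← tendsto_add_atTop_iff_nat 1]
    refine tendsto_of_subseq_tendsto fun ns hns => ?_
    obtain ⟨P, _, ψ, hψ, hlim⟩ := (tight_compact _ ht).tendsto_subseq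
      (x := fun j => law (seen d) (ns j)) fun j => subset_closure ⟨ns j, rfl⟩
    refine ⟨ψ, ?_⟩
    have hPl : IsLim (seen d) P := by
      rw [isLim_iff]
      refine MapClusterPt.of_comp (hns.comp hψ.tendsto_atTop) ?_
      exact hlim.mapClusterPt
    have hl := hP P hPl
    have htr : ∀ a b η : ℝ, Tendsto (fun j => av (seen d) (ns (ψ j) + 1)
        (fun ω => trap a b η (ω 0))) atTop
        (𝓝 (∫ ω, trap a b η (ω 0) ∂(P : Measure (ℤ → ℝ)))) := fun a b η =>
      (tendsto_law_iff (seen d) (fun j => ns (ψ j)) P).1 hlim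
        (BoundedContinuousFunction.ofNormedAddCommGroup (fun ω : ℤ → ℝ => trap a b η (ω 0))
        (continuous_trap0 a b η) 1 fun ω => abs_trap _ _ _ _)
    refine tendsto_order.2 ⟨fun y hy => ?_, fun y hy => ?_⟩
    · obtain ⟨η, hη1, hη⟩ := (((hdn a b ha hab).eventually (lt_mem_nhds hy)).and
        (hsmall a b ha hab)).exists
      have h3 : y < ∫ ω, trap a b η (ω 0) ∂(P : Measure (ℤ → ℝ)) := by
        refine lt_of_lt_of_le hη1 ?_
        rw [← hl (a + η) (b - η) (by linarith [hη.1]) hη.2.2]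
        have := le_int_trap P (a + η) (b - η) hη.1
        rw [add_sub_cancel_right, sub_add_cancel] at this
        exact this
      filter_upwards [(htr a b η).eventually (lt_mem_nhds h3)] with j hj
      exact lt_of_lt_of_le hj (av_trap_le d a b hη.1 _)
    · obtain ⟨η, hη1, hη⟩ := (((hup a b ha hab).eventually (gt_mem_nhds hy)).and
        (hsmall a b ha hab)).exists
      have h3 : ∫ ω, trap (a - η) (b + η) η (ω 0) ∂(P : Measure (ℤ → ℝ)) < y := by
        refine lt_of_le_of_lt ?_ hη1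
        rw [← hl (a - η) (b + η) hη.2.1 (by linarith [hη.1])]
        exact int_trap_le P _ _ hη.1
      filter_upwards [(htr (a - η) (b + η) η).eventually (gt_mem_nhds h3)] with j hj
      exact lt_of_le_of_lt (le_av_trap d a b hη.1 _) hj

end

end Q172.ZetaLim
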