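import Pool.Agent.Q172.ZetaLim.Spread
import Pool.Agent.Q172.ZetaLim.Exch
import Pool.Agent.Q172.ZetaLim.Freq

/-!
# Limits of the two-sided sequences of gaps: main theorem for a sequence which is rigid in the mean
-/

set_option autoImplicit false

namespace Q172.ZetaLim

open MeasureTheory Filter Topology Set
open scoped NNReal ENNReal

noncomputable section

/-- a bound for the mean for large `N` gives one for all `N` -/
lemma mean_all {d : ℕ → ℝ} {C1 : ℝ} (hC1 : 0 < C1)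
    (h : ∀ᶠ N : ℕ in atTop, ∑ n ∈ Finset.Icc 1 N, |d n - 1| ≤ C1 * N) :
    ∃ C : ℝ, 0 < C ∧ ∀ N : ℕ, ∑ n ∈ Finset.Icc 1 N, |d n| ≤ C * N := by
  obtain ⟨N1, hN1⟩ := Filter.eventually_atTop.1 h
  obtain ⟨S, hS⟩ : ∃ S : ℝ, S = ∑ n ∈ Finset.Icc 1 N1, |d n| := ⟨_, rfl⟩
  have hS0 : 0 ≤ S := by rw [hS]; exact Finset.sum_nonneg fun _ _ => abs_nonneg _
  refine ⟨1 + C1 + S, by positivity, fun N => ?_⟩
  rcases Nat.eq_zero_or_pos N with rfl | hN
  · simp
  have hN' : (1 : ℝ) ≤ N := by exact_mod_cast hN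
  rcases le_total N1 N with h1 | h1
  · have h2 : ∑ n ∈ Finset.Icc 1 N, |d n| ≤ ∑ n ∈ Finset.Icc 1 N, (|d n - 1| + 1) := by
      refine Finset.sum_le_sum fun n _ => ?_
      have := abs_add_le (d n - 1) 1
      rw [sub_add_cancel, abs_one] at this
      exact this
    rw [Finset.sum_add_distrib, Finset.sum_const, Nat.card_Icc, Nat.add_sub_cancel, nsmul_eq_mul,
      mul_one] at h2
    have h3 := hN1 N h1
    nlinarith [mul_nonneg hS0 (by linarith : (0 : ℝ) ≤ N)]
  · have h2 : ∑ n ∈ Finset.Icc 1 N, |d n| ≤ S := by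
      rw [hS]
      refine Finset.sum_le_sum_of_subset_of_nonneg ?_ fun _ _ _ => abs_nonneg _
      exact Finset.Icc_subset_Icc_right h1
    nlinarith [mul_nonneg hS0 (by linarith : (0 : ℝ) ≤ N - 1)]

end

end Q172.ZetaLim
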