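import Pool.Agent.Q172.SawLim.Soft

/-!
# Limits of the empirical measures of a sequence of points of a Polish space
-/

set_option autoImplicit false

namespace Q172.ZetaLim

open MeasureTheory Filter Topology Set
open scoped NNReal ENNReal

noncomputable section

variable {S : Type*}

/-- average of `F` over the first `N` points -/
def av (s : ℕ → S) (N : ℕ) (F : S → ℝ) : ℝ := (∑ n ∈ Finset.Icc 1 N, F (s n)) / (N : ℝ)

lemma sum_le_of_bdd {s : ℕ → S} {F : S → ℝ} {M : ℝ} (h : ∀ x, |F x| ≤ M) (A : Finset ℕ) :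
    |∑ n ∈ A, F (s n)| ≤ A.card * M := by
  refine (Finset.abs_sum_le_sum_abs _ _).trans ?_
  refine (Finset.sum_le_sum fun n _ => h (s n)).trans ?_
  rw [Finset.sum_const, nsmul_eq_mul]

lemma av_succ_sub {s : ℕ → S} {F : S → ℝ} {M : ℝ} (h : ∀ x, |F x| ≤ M) (N : ℕ) :
    |av s (N + 2) F - av s (N + 1) F| ≤ 2 * M / (N + 2 : ℕ) := by
  have h1 : (0 : ℝ) < (N + 1 : ℕ) := by positivity
  have h2 : (0 : ℝ) < (N + 2 : ℕ) := by positivity
  have hs := sum_le_of_bdd (s := s) h (Finset.Icc 1 (N + 1))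
  rw [Nat.card_Icc, Nat.add_sub_cancel] at hs
  have hl := h (s (N + 2))
  unfold av
  rw [Finset.sum_Icc_succ_top (by omega)]
  have e : (∑ n ∈ Finset.Icc 1 (N + 1), F (s n) + F (s (N + 1 + 1))) / ((N + 2 : ℕ) : ℝ) -
      (∑ n ∈ Finset.Icc 1 (N + 1), F (s n)) / ((N + 1 : ℕ) : ℝ) =
      (F (s (N + 2)) - (∑ n ∈ Finset.Icc 1 (N + 1), F (s n)) / ((N + 1 : ℕ) : ℝ)) /
        ((N + 2 : ℕ) : ℝ) := by
    have e1 : ((N + 2 : ℕ) : ℝ) = ((N + 1 : ℕ) : ℝ) + 1 := by push_cast; ring
    rw [e1] at h2 ⊢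
    field_simp
    ring
  rw [e, abs_div, abs_of_pos h2]
  gcongr
  have h3 : |(∑ n ∈ Finset.Icc 1 (N + 1), F (s n)) / ((N + 1 : ℕ) : ℝ)| ≤ M := by
    rw [abs_div, abs_of_pos h1, div_le_iff₀ h1]
    linarith
  have h4 := abs_sub (F (s (N + 2))) ((∑ n ∈ Finset.Icc 1 (N + 1), F (s n)) / ((N + 1 : ℕ) : ℝ))
  linarith

variable [TopologicalSpace S] [PolishSpace S] [MeasurableSpace S] [BorelSpace S]

/-- the empirical measure of the first `N` points -/
def lawM (s : ℕ → S) (N : ℕ) : Measure S :=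
  ∑ n ∈ Finset.Icc 1 N, (ENNReal.ofReal (1 / (N : ℝ))) • Measure.dirac (s n)

lemma lawM_univ (s : ℕ → S) (N : ℕ) : lawM s (N + 1) univ = 1 := by
  have : (0 : ℝ) < (N + 1 : ℕ) := by positivity
  unfold lawM
  simp only [Measure.coe_finsetSum, Finset.sum_apply, Measure.smul_apply, measure_univ,
    smul_eq_mul, mul_one, Finset.sum_const, nsmul_eq_mul, Nat.card_Icc, Nat.add_sub_cancel]
  rw [← ENNReal.ofReal_natCast, ← ENNReal.ofReal_mul this.le]
  rw [mul_one_div_cancel this.ne', ENNReal.ofReal_one]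

/-- the empirical measure of the first `N + 1` points, as a probability measure -/
def law (s : ℕ → S) (N : ℕ) : ProbabilityMeasure S := ⟨lawM s (N + 1), ⟨lawM_univ s N⟩⟩

lemma integral_law (s : ℕ → S) (N : ℕ) {g : S → ℝ} (hg : Measurable g) :
    ∫ x, g x ∂(law s N : Measure S) = av s (N + 1) g := by
  show ∫ x, g x ∂(lawM s (N + 1)) = _
  unfold lawM
  have hint : ∀ n ∈ Finset.Icc 1 (N + 1),
      Integrable g ((ENNReal.ofReal (1 / ((N + 1 : ℕ) : ℝ))) • Measure.dirac (s n)) := by
    intro w _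
    refine Integrable.smul_measure ?_ ENNReal.ofReal_ne_top
    exact integrable_dirac' hg.stronglyMeasurable (by simp)
  rw [integral_finsetSum_measure hint]
  unfold av
  rw [Finset.sum_div]
  refine Finset.sum_congr rfl fun w _ => ?_
  rw [integral_smul_measure, integral_dirac' _ _ hg.stronglyMeasurable,
    ENNReal.toReal_ofReal (by positivity), smul_eq_mul]
  ring

/-- limit points of the empirical measures -/
def IsLim (s : ℕ → S) (P : ProbabilityMeasure S) : Prop :=
  ∃ φ : ℕ → ℕ, StrictMono φ ∧ ∀ g : BoundedContinuousFunction S ℝ,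
    Tendsto (fun j => av s (φ j) (fun x => g x)) atTop (𝓝 (∫ x, g x ∂(P : Measure S)))

lemma tendsto_law_iff (s : ℕ → S) (φ : ℕ → ℕ) (P : ProbabilityMeasure S) :
    Tendsto (fun k => law s (φ k)) atTop (𝓝 P) ↔
      ∀ g : BoundedContinuousFunction S ℝ,
        Tendsto (fun k => av s (φ k + 1) (fun x => g x)) atTop
          (𝓝 (∫ x, g x ∂(P : Measure S))) := by
  rw [ProbabilityMeasure.tendsto_iff_forall_integral_tendsto]
  refine forall_congr' fun g => ?_
  simp only [integral_law _ _ g.continuous.measurable]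

theorem isLim_iff (s : ℕ → S) (P : ProbabilityMeasure S) :
    IsLim s P ↔ MapClusterPt P atTop (law s) := by
  constructor
  · rintro ⟨φ, h1, h2⟩
    have hφ : ∀ j, φ (j + 1) - 1 + 1 = φ (j + 1) := fun j => by
      have := h1.id_le (j + 1)
      simp only [id] at this
      omega
    have hψ : Tendsto (fun j => φ (j + 1) - 1) atTop atTop := by
      refine tendsto_atTop_mono (f := fun j => j) (fun j => ?_) tendsto_id
      have := h1.id_le (j + 1)
      simp only [id] at this
      omega
    refine MapClusterPt.of_comp hψ ?_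
    refine Tendsto.mapClusterPt ?_
    show Tendsto (fun j => law s (φ (j + 1) - 1)) atTop (𝓝 P)
    rw [tendsto_law_iff]
    intro g
    simp only [hφ]
    exact (h2 g).comp (tendsto_add_atTop_nat 1)
  · intro h
    obtain ⟨ψ, h1, h2⟩ := MapClusterPt.tendsto_subseq h
    refine ⟨fun k => ψ k + 1, fun a b hab => Nat.add_lt_add_right (h1 hab) 1, ?_⟩
    rw [← tendsto_law_iff]
    exact h2

/-- A set of laws with mass almost one on compact sets has compact closure. -/
theorem tight_compact (P : ℕ → ProbabilityMeasure S)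
    (h : ∀ ε : ℝ, 0 < ε → ∃ Q : Set S, IsCompact Q ∧ ∀ k, (P k : Measure S).real Qᶜ ≤ ε) :
    IsCompact (closure (Set.range P)) := by
  apply isCompact_closure_of_isTightMeasureSet
  rw [isTightMeasureSet_iff_exists_isCompact_measure_compl_le]
  intro ε hε
  rcases eq_or_ne ε ⊤ with rfl | hε'
  · exact ⟨∅, isCompact_empty, fun μ _ => le_top⟩
  obtain ⟨Q, hQ, hQP⟩ := h ε.toReal (ENNReal.toReal_pos hε.ne' hε')
  refine ⟨Q, hQ, ?_⟩
  rintro _ ⟨μ, ⟨k, rfl⟩, rfl⟩
  have h1 := hQP k
  rw [Measure.real, ENNReal.toReal_le_toReal (measure_ne_top _ _) hε'] at h1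
  exact h1

/-- If the empirical measures are tight then the set of their limit points is compact and
connected. -/
theorem isLim_connected (s : ℕ → S)
    (h : ∀ ε : ℝ, 0 < ε → ∃ Q : Set S, IsCompact Q ∧ ∀ N, (law s N : Measure S).real Qᶜ ≤ ε) :
    IsCompact {P | IsLim s P} ∧ IsConnected {P | IsLim s P} := by
  have e : {P | IsLim s P} = {P | MapClusterPt P atTop (law s)} := by
    ext P
    exact isLim_iff s P
  rw [e]
  refine SawLim.connected_cluster _ (closure (Set.range (law s))) (tight_compact _ h)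
    (fun k => subset_closure ⟨k, rfl⟩) ?_
  intro F _ hFa P hP
  rw [ProbabilityMeasure.tendsto_iff_forall_integral_tendsto] at hP ⊢
  intro g
  have h1 := hP g
  have h2 : Tendsto (fun k => ∫ x, g x ∂(law s (k + 1) : Measure S) -
      ∫ x, g x ∂(law s k : Measure S)) atTop (𝓝 0) := by
    rw [tendsto_zero_iff_abs_tendsto_zero]
    refine squeeze_zero (g := fun k : ℕ => 2 * ‖g‖ / (k + 2 : ℕ)) (fun k => abs_nonneg _)
      (fun k => ?_) ?_
    · simp only [Function.comp, integral_law _ _ g.continuous.measurable]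
      exact av_succ_sub (fun x => g.norm_coe_le_norm x) k
    · exact (tendsto_const_div_atTop_nhds_zero_nat (2 * ‖g‖)).comp (tendsto_add_atTop_nat 2)
  have h3 := h1.add (h2.mono_left hFa)
  rw [add_zero] at h3
  refine h3.congr fun k => ?_
  ring

/-- compact connected subsets of `ProbabilityMeasure S` are points or uncountable -/
theorem singleton_or_uncountable {L : Set (ProbabilityMeasure S)} (h : IsConnected L) :
    (∃ ν, L = {ν}) ∨ ¬ L.Countable := by
  by_contra hcon
  push Not at hcon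
  obtain ⟨h1, h2⟩ := hcon
  letI := TopologicalSpace.metrizableSpaceMetric (ProbabilityMeasure S)
  have h3 := h2.isTotallyDisconnected L le_rfl h.isPreconnected
  obtain ⟨ν, hν⟩ := h.nonempty
  exact h1 ν (h3.eq_singleton_of_mem hν)

omit [PolishSpace S] in
lemma integrable_of_bdd (P : ProbabilityMeasure S) {f : S → ℝ} (hc : Measurable f) {C : ℝ}
    (hb : ∀ x, |f x| ≤ C) : Integrable f (P : Measure S) := by
  refine Integrable.of_bound hc.aestronglyMeasurable C ?_
  exact Filter.Eventually.of_forall fun x => by rw [Real.norm_eq_abs]; exact hb x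

/-- bounded continuous functions: upper bounds of averages pass to the limit -/
lemma lim_le {s : ℕ → S} {P : ProbabilityMeasure S} (hP : IsLim s P) {F : S → ℝ}
    (hF : Continuous F) {M : ℝ} (hM : ∀ x, |F x| ≤ M) {a : ℝ}
    (h : ∀ ε : ℝ, 0 < ε → ∀ᶠ N : ℕ in atTop, ∑ n ∈ Finset.Icc 1 N, F (s n) ≤ (a + ε) * N) :
    ∫ x, F x ∂(P : Measure S) ≤ a := by
  obtain ⟨φ, h1, h2⟩ := hP
  have h3 := h2 (BoundedContinuousFunction.ofNormedAddCommGroup F hF M hM)
  simp only [BoundedContinuousFunction.coe_ofNormedAddCommGroup] at h3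
  refine le_of_forall_pos_le_add fun ε hε => ?_
  refine le_of_tendsto h3 ?_
  filter_upwards [h1.tendsto_atTop.eventually (h ε hε),
    h1.tendsto_atTop.eventually (eventually_gt_atTop 0)] with j hj hj0
  unfold av
  rw [div_le_iff₀ (by exact_mod_cast hj0)]
  exact hj

/-- bounded continuous functions: lower bounds of averages pass to the limit -/
lemma le_lim {s : ℕ → S} {P : ProbabilityMeasure S} (hP : IsLim s P) {F : S → ℝ}
    (hF : Continuous F) {M : ℝ} (hM : ∀ x, |F x| ≤ M) {a : ℝ}
    (h : ∀ ε : ℝ, 0 < ε → ∀ᶠ N : ℕ in atTop, (a - ε) * N ≤ ∑ n ∈ Finset.Icc 1 N, F (s n)) :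
    a ≤ ∫ x, F x ∂(P : Measure S) := by
  have h1 := lim_le hP (F := fun x => - F x) hF.neg (M := M) (fun x => by rw [abs_neg]; exact hM x)
    (a := -a) (fun ε hε => by
      filter_upwards [h ε hε] with N hN
      rw [Finset.sum_neg_distrib]
      nlinarith)
  rw [integral_neg] at h1
  linarith

/-- nonnegative continuous functions: upper bounds of averages pass to the limit -/
theorem fatou {s : ℕ → S} {P : ProbabilityMeasure S} (hP : IsLim s P) {F : S → ℝ}
    (hF : Continuous F) (h0 : ∀ x, 0 ≤ F x) {a : ℝ}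
    (h : ∀ ε : ℝ, 0 < ε → ∀ᶠ N : ℕ in atTop, ∑ n ∈ Finset.Icc 1 N, F (s n) ≤ (a + ε) * N) :
    Integrable F (P : Measure S) ∧ ∫ x, F x ∂(P : Measure S) ≤ a := by
  have hmin : ∀ n : ℕ, ∫ x, min (F x) n ∂(P : Measure S) ≤ a := fun n =>
    lim_le hP (hF.min continuous_const) (M := n) (fun x => by
      rw [abs_of_nonneg (le_min (h0 x) (Nat.cast_nonneg n))]
      exact min_le_right _ _) (fun ε hε => by
      filter_upwards [h ε hε] with N hN
      exact (Finset.sum_le_sum fun n _ => min_le_left _ _).trans hN)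
  have ha : 0 ≤ a := by
    refine le_trans ?_ (hmin 0)
    exact integral_nonneg fun x => le_min (h0 x) (Nat.cast_nonneg 0)
  have hl : ∫⁻ x, ENNReal.ofReal (F x) ∂(P : Measure S) ≤ ENNReal.ofReal a := by
    have e : ∀ x, ENNReal.ofReal (F x) = ⨆ n : ℕ, ENNReal.ofReal (min (F x) n) := by
      intro x
      refine le_antisymm ?_ (iSup_le fun n => ENNReal.ofReal_le_ofReal (min_le_left _ _))
      obtain ⟨n, hn⟩ := exists_nat_ge (F x)
      refine le_trans (le_of_eq ?_) (le_iSup (fun n : ℕ => ENNReal.ofReal (min (F x) n)) n)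
      rw [min_eq_left hn]
    simp only [e]
    rw [lintegral_iSup]
    · refine iSup_le fun n => ?_
      rw [← ofReal_integral_eq_lintegral_ofReal]
      · exact ENNReal.ofReal_le_ofReal (hmin n)
      · exact integrable_of_bdd P (hF.min continuous_const).measurable (C := n) (fun x => by
          rw [abs_of_nonneg (le_min (h0 x) (Nat.cast_nonneg n))]
          exact min_le_right _ _)
      · exact Filter.Eventually.of_forall fun x => le_min (h0 x) (Nat.cast_nonneg n)
    · intro n
      exact ((hF.min continuous_const).measurable).ennreal_ofReal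
    · intro m n hmn x
      exact ENNReal.ofReal_le_ofReal (min_le_min le_rfl (by exact_mod_cast hmn))
  have hint : Integrable F (P : Measure S) := by
    refine ⟨hF.measurable.aestronglyMeasurable, ?_⟩
    rw [hasFiniteIntegral_iff_ofReal (Filter.Eventually.of_forall h0)]
    exact lt_of_le_of_lt hl ENNReal.ofReal_lt_top
  refine ⟨hint, ?_⟩
  rw [← ENNReal.ofReal_le_ofReal_iff ha,
    ofReal_integral_eq_lintegral_ofReal hint (Filter.Eventually.of_forall h0)]
  exact hl

end

end Q172.ZetaLim
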