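import Pool.Agent.Q172.ZetaLim.Rigid

/-!
# Rigidity implies that the gaps are uniformly integrable
-/

set_option autoImplicit false

namespace Q172.ZetaLim

open MeasureTheory Filter Topology Set
open scoped NNReal ENNReal

noncomputable section

lemma window_sum {z : ℕ → ℝ} (hz : ∀ n, 0 ≤ z n) (m0 h N : ℕ) :
    (h + 1 : ℝ) * ∑ m ∈ Finset.Ioc (m0 + h) N, z m ≤
      ∑ n ∈ Finset.Ioc m0 N, ∑ k ∈ Finset.range (h + 1), z (n + k) := by
  rw [Finset.sum_comm]
  have h1 : ∀ k ∈ Finset.range (h + 1), ∑ m ∈ Finset.Ioc (m0 + h) N, z m ≤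
      ∑ n ∈ Finset.Ioc m0 N, z (n + k) := by
    intro k hk
    rw [Finset.mem_range] at hk
    have e : ∑ n ∈ Finset.Ioc m0 N, z (n + k) =
        ∑ m ∈ (Finset.Ioc m0 N).image (fun n => n + k), z m := by
      rw [Finset.sum_image]
      intro a _ b _ hab
      simp only at hab
      omega
    rw [e]
    refine Finset.sum_le_sum_of_subset_of_nonneg ?_ fun _ _ _ => hz _
    intro m hm
    rw [Finset.mem_Ioc] at hm
    rw [Finset.mem_image]
    exact ⟨m - k, by rw [Finset.mem_Ioc]; omega, by omega⟩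
  have h2 := Finset.sum_le_sum h1
  rw [Finset.sum_const, Finset.card_range, nsmul_eq_mul] at h2
  push_cast at h2
  exact h2

/-- the part of the gap above `1 + A` -/
def zz (d : ℕ → ℝ) (A : ℝ) (n : ℕ) : ℝ := max 0 (d n - 1 - A)

lemma zz_nonneg (d : ℕ → ℝ) (A : ℝ) (n : ℕ) : 0 ≤ zz d A n := le_max_left _ _

/-- a large gap makes the functional large at all the places nearby -/
lemma LL_ge {d : ℕ → ℝ} {n0 : ℕ} (hd : ∀ n, n0 ≤ n → 0 ≤ d n) {J n : ℕ} (hJ : 1 ≤ J)
    (hn : 2 ^ J + n0 < n) {A : ℝ} (hA : 2 * J * (1 + 2 * 2 ^ J) ≤ A) :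
    ∑ k ∈ Finset.range (2 ^ (J - 1) + 1), zz d A (n + k) ≤ 2 * J * |LL J 1 (seen d n)| := by
  have hJ' : (0 : ℝ) < J := by exact_mod_cast hJ
  have hA0 : 0 ≤ A := le_trans (by positivity) hA
  by_cases hall : ∀ k ∈ Finset.range (2 ^ (J - 1) + 1), zz d A (n + k) = 0
  · rw [Finset.sum_eq_zero hall]
    positivity
  push Not at hall
  obtain ⟨k0, hk0, hk0z⟩ := hall
  -- positive parts
  obtain ⟨x, hx⟩ : ∃ x : ℕ → ℝ, x = fun m => d m - 1 := ⟨_, rfl⟩
  have hx1 : ∀ m, n0 ≤ m → -1 ≤ x m := fun m hm => by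
    rw [hx]
    have := hd m hm
    simp only
    linarith
  have hz : ∀ m, zz d A m ≤ max 0 (x m) := fun m => by
    unfold zz
    rw [hx]
    exact max_le_max le_rfl (by linarith)
  have hz0 : zz d A (n + k0) + A ≤ max 0 (x (n + k0)) := by
    unfold zz at hk0z ⊢
    rw [hx]
    have h1 : 0 < d (n + k0) - 1 - A := by
      by_contra hcon
      push Not at hcon
      exact hk0z (max_eq_left hcon)
    rw [max_eq_right h1.le]
    refine le_trans ?_ (le_max_right _ _)
    simp only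
    linarith
  have hsumz : ∑ k ∈ Finset.range (2 ^ (J - 1) + 1), zz d A (n + k) + A ≤
      ∑ k ∈ Finset.range (2 ^ (J - 1) + 1), max 0 (x (n + k)) := by
    rw [← Finset.add_sum_erase _ _ hk0, ← Finset.add_sum_erase _ _ hk0]
    have h1 := Finset.sum_le_sum (s := (Finset.range (2 ^ (J - 1) + 1)).erase k0)
      (fun k _ => hz (n + k))
    linarith
  have hle : 2 ^ (J - 1) ≤ 2 ^ J := Nat.pow_le_pow_right (by norm_num) (by omega)
  have h2J : 0 < 2 ^ J := Nat.two_pow_pos J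
  -- the functional
  have hLL : (1 / (2 * J) : ℝ) * ∑ k ∈ Finset.range (2 ^ (J - 1) + 1), max 0 (x (n + k)) -
      (1 + 2 * 2 ^ J) ≤ LL J 1 (seen d n) := by
    rw [LL_seen d (le_refl 1) (by omega), Finset.sum_range_one]
    have e1 : d (n + 0) - 1 = x n := by rw [hx]; rfl
    have h0 : (1 / (2 * J) : ℝ) * max 0 (x n) - 1 ≤ x n := by
      have hJ1 : (1 : ℝ) ≤ J := by exact_mod_cast hJ
      have h2 : (1 / (2 * J) : ℝ) ≤ 1 := by
        rw [div_le_one (by positivity)]; linarith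
      have h3 := hx1 n (by omega)
      have h4 : (1 / (2 * J) : ℝ) * max 0 (x n) ≤ 1 * max 0 (x n) :=
        mul_le_mul_of_nonneg_right h2 (le_max_left _ _)
      rcases le_total 0 (x n) with h5 | h5
      · rw [max_eq_right h5] at h4 ⊢
        linarith
      · rw [max_eq_left h5]
        simp only [mul_zero]
        linarith
    have h1 : ∀ k ∈ Finset.Icc 1 (2 ^ J),
        (if k ≤ 2 ^ (J - 1) then (1 / (2 * J) : ℝ) * max 0 (x (n + k)) else 0) - 2 ≤
        u J 1 k * ((d (n - k) - 1) + (d (n + 1 - 1 + k) - 1)) := by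
      intro k hk
      rw [Finset.mem_Icc] at hk
      rw [u_one, show n + 1 - 1 + k = n + k by omega]
      have e2 : d (n - k) - 1 = x (n - k) := by rw [hx]
      have e3 : d (n + k) - 1 = x (n + k) := by rw [hx]
      rw [e2, e3]
      have h2 := hx1 (n - k) (by omega)
      have h3 := hx1 (n + k) (by omega)
      have h4 := w_nonneg J k
      have h5 := w_le_one J k
      have h6 : -1 ≤ w J k * x (n - k) := by nlinarith
      have h7 : (if k ≤ 2 ^ (J - 1) then (1 / (2 * J) : ℝ) * max 0 (x (n + k)) else 0) - 1 ≤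
          w J k * x (n + k) := by
        rcases le_total 0 (x (n + k)) with h8 | h8
        · rw [max_eq_right h8]
          split_ifs with h9
          · have := mul_le_mul_of_nonneg_right (w_ge hJ h9) h8
            linarith
          · have := mul_nonneg h4 h8
            linarith
        · rw [max_eq_left h8]
          simp only [mul_zero, ite_self]
          nlinarith
      linarith
    have h2 := Finset.sum_le_sum h1
    rw [Finset.sum_sub_distrib, Finset.sum_const, Nat.card_Icc, Nat.add_sub_cancel,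
      nsmul_eq_mul] at h2
    have h3 : ∑ k ∈ Finset.range (2 ^ (J - 1) + 1), max 0 (x (n + k)) =
        max 0 (x n) + ∑ k ∈ Finset.Icc 1 (2 ^ (J - 1)), max 0 (x (n + k)) := by
      rw [Finset.sum_range_succ', add_comm]
      congr 1
      rw [Finset.range_eq_Ico, Finset.sum_Ico_add' (fun k => max 0 (x (n + k))) 0 _ 1]
      rfl
    have h4 : ∑ k ∈ Finset.Icc 1 (2 ^ J),
        (if k ≤ 2 ^ (J - 1) then (1 / (2 * J) : ℝ) * max 0 (x (n + k)) else 0) =
        (1 / (2 * J) : ℝ) * ∑ k ∈ Finset.Icc 1 (2 ^ (J - 1)), max 0 (x (n + k)) := by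
      rw [← Finset.sum_filter, Finset.mul_sum]
      refine Finset.sum_congr ?_ fun _ _ => rfl
      ext k
      rw [Finset.mem_filter, Finset.mem_Icc, Finset.mem_Icc]
      omega
    rw [h4] at h2
    rw [h3, mul_add, e1]
    simp only [Nat.add_sub_cancel] at h2 ⊢
    push_cast at h2
    linarith
  have h1 : (1 / (2 * J) : ℝ) * (∑ k ∈ Finset.range (2 ^ (J - 1) + 1), zz d A (n + k) + A) ≤
      (1 / (2 * J) : ℝ) * ∑ k ∈ Finset.range (2 ^ (J - 1) + 1), max 0 (x (n + k)) :=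
    mul_le_mul_of_nonneg_left hsumz (by positivity)
  have h2 : (1 + 2 * 2 ^ J : ℝ) ≤ (1 / (2 * J) : ℝ) * A := by
    rw [one_div, ← div_eq_inv_mul, le_div_iff₀ (by positivity)]
    linarith
  have h3 : (1 / (2 * J) : ℝ) * ∑ k ∈ Finset.range (2 ^ (J - 1) + 1), zz d A (n + k) ≤
      LL J 1 (seen d n) := by
    rw [mul_add] at h1
    linarith
  have h4 := h3.trans (le_abs_self _)
  rw [one_div, inv_mul_le_iff₀ (by positivity)] at h4
  exact h4

/-- uniform integrability -/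
lemma ui {d : ℕ → ℝ} {n0 : ℕ} (hd : ∀ n, n0 ≤ n → 0 ≤ d n) {C : ℝ} (hC : 0 < C)
    (h : RigidSeq d C) {J : ℕ} (hJ : 1 ≤ J) {A : ℝ} (hA : 2 * J * (1 + 2 * 2 ^ J) ≤ A)
    (ε : ℝ) (hε : 0 < ε) : ∀ᶠ N : ℕ in atTop,
      ∑ n ∈ Finset.Icc 1 N, max 0 (|d n - 1| - A) ≤ (8 * C * J / 2 ^ J + ε) * N := by
  have hJ' : (1 : ℝ) ≤ J := by exact_mod_cast hJ
  have hA1 : 1 ≤ A := by
    refine le_trans ?_ hA
    have h2J : (1 : ℝ) ≤ 2 ^ J := one_le_pow₀ (by norm_num)
    nlinarith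
  refine ev_of_tail (f := fun n => max 0 (|d n - 1| - A)) (fun _ => le_max_left _ _)
    (2 ^ J + n0 + 2 ^ (J - 1)) (fun ε hε => ?_) ε hε
  filter_upwards [h J 1 hJ (le_refl 1)] with N hN
  have e1 : ∀ n ∈ Finset.Ioc (2 ^ J + n0 + 2 ^ (J - 1)) N,
      max 0 (|d n - 1| - A) = zz d A n := by
    intro n hn
    rw [Finset.mem_Ioc] at hn
    unfold zz
    have h2J : 0 < 2 ^ J := Nat.two_pow_pos J
    have h2J' : 0 < 2 ^ (J - 1) := Nat.two_pow_pos (J - 1)
    have h1 := hd n (by omega)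
    rcases le_total 0 (d n - 1) with h2 | h2
    · rw [abs_of_nonneg h2]
    · rw [abs_of_nonpos h2, max_eq_left (by linarith), max_eq_left (by linarith)]
  rw [Finset.sum_congr rfl e1]
  have h1 := window_sum (z := zz d A) (zz_nonneg d A) (2 ^ J + n0) (2 ^ (J - 1)) N
  have h2 : ∑ n ∈ Finset.Ioc (2 ^ J + n0) N, ∑ k ∈ Finset.range (2 ^ (J - 1) + 1),
      zz d A (n + k) ≤ ∑ n ∈ Finset.Ioc (2 ^ J + n0) N, 2 * J * |LL J 1 (seen d n)| := by
    refine Finset.sum_le_sum fun n hn => ?_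
    rw [Finset.mem_Ioc] at hn
    exact LL_ge hd hJ hn.1 hA
  rw [← Finset.mul_sum] at h2
  have h3 : ∑ n ∈ Finset.Ioc (2 ^ J + n0) N, |LL J 1 (seen d n)| ≤
      C * (1 / Real.sqrt J + (1 : ℕ) * (1 + Real.log (1 : ℕ)) / J) * N := by
    refine le_trans ?_ hN
    refine le_trans (Finset.sum_le_sum_of_subset_of_nonneg (t := Finset.Ioc (2 ^ J) N) ?_
      fun _ _ _ => abs_nonneg _) (le_of_eq ?_)
    · intro n hn
      rw [Finset.mem_Ioc] at hn ⊢
      omega
    · refine Finset.sum_congr rfl fun n hn => ?_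
      rw [Finset.mem_Ioc] at hn
      rw [LL_seen d (le_refl 1) hn.1]
  have h4 : C * (1 / Real.sqrt J + (1 : ℕ) * (1 + Real.log (1 : ℕ)) / J) * N ≤ C * 2 * N := by
    have hs : 1 ≤ Real.sqrt J := Real.one_le_sqrt.2 hJ'
    have h5 : 1 / Real.sqrt J ≤ 1 := by
      rw [div_le_one (by linarith)]; exact hs
    have h6 : (1 : ℝ) / J ≤ 1 := by
      rw [div_le_one (by linarith)]; exact hJ'
    simp only [Nat.cast_one, Real.log_one, add_zero, mul_one]
    gcongr
    linarith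
  have h5 : (2 ^ (J - 1) : ℝ) * ∑ m ∈ Finset.Ioc (2 ^ J + n0 + 2 ^ (J - 1)) N, zz d A m ≤
      2 * J * (C * 2 * N) := by
    have h6 : 2 * J * ∑ n ∈ Finset.Ioc (2 ^ J + n0) N, |LL J 1 (seen d n)| ≤
        2 * J * (C * 2 * N) := by
      have := h3.trans h4
      gcongr
    have h7 : 0 ≤ ∑ m ∈ Finset.Ioc (2 ^ J + n0 + 2 ^ (J - 1)) N, zz d A m :=
      Finset.sum_nonneg fun _ _ => zz_nonneg _ _ _
    push_cast at h1
    nlinarith
  have h6 : (2 : ℝ) ^ J = 2 * 2 ^ (J - 1) := by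
    rw [← pow_succ']
    congr 1
    omega
  have h7 : ∑ m ∈ Finset.Ioc (2 ^ J + n0 + 2 ^ (J - 1)) N, zz d A m ≤
      8 * C * J / 2 ^ J * N := by
    rw [h6, div_mul_eq_mul_div, le_div_iff₀ (by positivity)]
    linarith
  have h8 : 0 ≤ ε * N := by positivity
  linarith

lemma tendsto_J : Tendsto (fun J : ℕ => (J : ℝ) / 2 ^ J) atTop (𝓝 0) := by
  have h := tendsto_self_mul_const_pow_of_lt_one (r := (1 / 2 : ℝ)) (by norm_num) (by norm_num)
  refine h.congr fun J => ?_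
  rw [one_div_pow]
  ring

/-- the gaps of the limit are not constant -/
theorem spread {d : ℕ → ℝ} {n0 : ℕ} (hd : ∀ n, n0 ≤ n → 0 ≤ d n) {C : ℝ} (hC : 0 < C)
    (h : RigidSeq d C) {c : ℝ}
    (hc : ∀ᶠ N : ℕ in atTop, c * N ≤ ∑ n ∈ Finset.Icc 1 N, |d n - 1|)
    {P : ProbabilityMeasure (ℤ → ℝ)} (hP : IsLim (seen d) P)
    (hint : ∀ k : ℤ, Integrable (fun ω : ℤ → ℝ => ω k) (P : Measure (ℤ → ℝ))) :
    c ≤ ∫ ω, |ω 0 - 1| ∂(P : Measure (ℤ → ℝ)) := by
  have key : ∀ J : ℕ, 1 ≤ J → c - 8 * C * ((J : ℝ) / 2 ^ J) ≤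
      ∫ ω, |ω 0 - 1| ∂(P : Measure (ℤ → ℝ)) := by
    intro J hJ
    obtain ⟨A, hA⟩ : ∃ A : ℝ, A = 2 * J * (1 + 2 * 2 ^ J) := ⟨_, rfl⟩
    have hA0 : 0 ≤ A := by rw [hA]; positivity
    have hcont : Continuous (fun ω : ℤ → ℝ => min |ω 0 - 1| A) := by fun_prop
    have hbd : ∀ ω : ℤ → ℝ, |min |ω 0 - 1| A| ≤ A := fun ω => by
      rw [abs_of_nonneg (le_min (abs_nonneg _) hA0)]
      exact min_le_right _ _
    have h1 := le_lim hP hcont hbd (a := c - 8 * C * ((J : ℝ) / 2 ^ J)) (fun ε hε => by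
      filter_upwards [hc, ui hd hC h hJ hA.ge ε hε] with N h1 h2
      have h3 : ∑ n ∈ Finset.Icc 1 N, |d n - 1| = ∑ n ∈ Finset.Icc 1 N, min |d n - 1| A +
          ∑ n ∈ Finset.Icc 1 N, max 0 (|d n - 1| - A) := by
        rw [← Finset.sum_add_distrib]
        refine Finset.sum_congr rfl fun n _ => ?_
        rcases le_total |d n - 1| A with h4 | h4
        · rw [min_eq_left h4, max_eq_left (by linarith)]; ring
        · rw [min_eq_right h4, max_eq_right (by linarith)]; ring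
      have h4 : ∑ n ∈ Finset.Icc 1 N, min |seen d n 0 - 1| A =
          ∑ n ∈ Finset.Icc 1 N, min |d n - 1| A := by
        refine Finset.sum_congr rfl fun n hn => ?_
        rw [Finset.mem_Icc] at hn
        have := seen_add d n 0 hn.1
        rw [Nat.cast_zero, add_zero] at this
        rw [this]
      rw [h4]
      have h5 : 8 * C * ((J : ℝ) / 2 ^ J) = 8 * C * J / 2 ^ J := by ring
      rw [h5]
      nlinarith)
    refine h1.trans ?_
    refine integral_mono (integrable_of_bdd P hcont.measurable hbd) ?_ fun ω => min_le_left _ _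
    exact ((hint 0).sub (integrable_const 1)).abs
  have hlim : Tendsto (fun J : ℕ => c - 8 * C * ((J : ℝ) / 2 ^ J)) atTop (𝓝 c) := by
    have := (tendsto_J.const_mul (8 * C)).const_sub c
    simpa using this
  refine le_of_tendsto hlim ?_
  filter_upwards [eventually_ge_atTop 1] with J hJ
  exact key J hJ

end

end Q172.ZetaLim
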